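import Pool.Agent.NPG.Stmts

/-! Row DEC (squad NPG): decomposition along a locally finite closed cover. -/

set_option autoImplicit false

open Set Topology

namespace Pool.Agent.NPG.H84

open Pool.Agent.LSG Pool.Agent.NPG

/-- restriction to a subset -/
noncomputable def rs {X : Type} [TopologicalSpace X] (S : Set X) : ↥(Cp X) →L[ℝ] ↥(Cp S) :=
  ContinuousLinearMap.codRestrict
    (ContinuousLinearMap.pi fun x : S => (ContinuousLinearMap.proj (R := ℝ) (φ := fun _ : X => ℝ) x.1).comp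
      (Cp X).subtypeL) (Cp S)
    (fun f => (f.2 : Continuous f.1).comp continuous_subtype_val)

theorem rs_apply {X : Type} [TopologicalSpace X] (S : Set X) (f : ↥(Cp X)) (x : S) :
    (rs S f).1 x = f.1 x.1 := rfl

/-- the union of the first sets -/
def Ar {X : Type} (D : ℕ → Set X) (n : ℕ) : Set X := {x | ∃ m < n, x ∈ D m}

theorem dec (hDUG : DugStmt) (hJEX : JexStmt) : DecStmt := by
  intro X _ _ D hD hlf hcov
  have hAc : ∀ n, IsClosed (Ar D n) := by
    intro n
    have h : Ar D n = ⋃ m ∈ Finset.range n, D m := by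
      ext x
      simp [Ar]
    rw [h]
    exact isClosed_biUnion_finset fun m _ => hD m
  have hAmono : ∀ {m n : ℕ}, m ≤ n → Ar D m ⊆ Ar D n := by
    rintro m n hmn x ⟨k, hk, hx⟩
    exact ⟨k, lt_of_lt_of_le hk hmn, hx⟩
  -- extension operators
  have hex : ∀ n, ∃ E : ↥(Cp X) →L[ℝ] ↥(Cp X),
      (∀ f x, x ∈ Ar D n → (E f).1 x = f.1 x) ∧
      (∀ f f' : ↥(Cp X), (∀ x ∈ Ar D n, f.1 x = f'.1 x) → E f = E f') := by
    intro n
    obtain ⟨φ, hφ⟩ := hDUG X (Ar D n) (hAc n)
    refine ⟨φ.comp (rs (Ar D n)), ?_, ?_⟩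
    · intro f x hx
      have := hφ (rs (Ar D n) f) ⟨x, hx⟩
      rw [rs_apply] at this
      exact this
    · intro f f' h
      have h1 : rs (Ar D n) f = rs (Ar D n) f' := by
        apply Subtype.ext
        funext x
        rw [rs_apply, rs_apply]
        exact h x.1 x.2
      show φ (rs (Ar D n) f) = φ (rs (Ar D n) f')
      rw [h1]
  choose E hE1 hE2 using hex
  have hjx : ∀ n, ∃ j : ↥(Rv (D n) (Ear D n)) →L[ℝ] ↥(Cp X), ∀ g : ↥(Rv (D n) (Ear D n)),
      (∀ x : D n, (j g).1 x.1 = g.1 x) ∧ ∀ x ∈ Ar D n, (j g).1 x = 0 := by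
    intro n
    exact hJEX X (Ar D n) (D n) (hAc n) (hD n)
  choose j hj using hjx
  -- the forward map
  have hPhi : ∀ n, ∃ P : ↥(Cp X) →L[ℝ] ↥(Rv (D n) (Ear D n)),
      ∀ (f : ↥(Cp X)) (x : D n), (P f).1 x = f.1 x.1 - (E n f).1 x.1 := by
    intro n
    refine ⟨ContinuousLinearMap.codRestrict
      (ContinuousLinearMap.pi fun x : D n =>
        (ContinuousLinearMap.proj (R := ℝ) (φ := fun _ : X => ℝ) x.1).comp
          ((Cp X).subtypeL.comp (ContinuousLinearMap.id ℝ _ - E n))) (Rv (D n) (Ear D n)) ?_, ?_⟩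
    · intro f
      refine ⟨?_, ?_⟩
      · exact ((f - E n f).2 : Continuous (f - E n f).1).comp continuous_subtype_val
      · rintro x ⟨m, hm, hx⟩
        show f.1 x.1 - (E n f).1 x.1 = 0
        rw [hE1 n f x.1 ⟨m, hm, hx⟩, sub_self]
    · intro f x
      rfl
  choose P hP using hPhi
  let Pr := ∀ n, ↥(Rv (D n) (Ear D n))
  let F : ℕ → (Pr →L[ℝ] ↥(Cp X)) := fun n =>
    Nat.rec (motive := fun _ => Pr →L[ℝ] ↥(Cp X)) 0
      (fun n G => (E n).comp G + (j n).comp (ContinuousLinearMap.proj n)) n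
  have hF0 : F 0 = 0 := rfl
  have hFs : ∀ n (g : Pr), F (n + 1) g = E n (F n g) + j n (g n) := fun n g => rfl
  have hstep : ∀ (g : Pr) n x, x ∈ Ar D n → (F (n + 1) g).1 x = (F n g).1 x := by
    intro g n x hx
    rw [hFs]
    show (E n (F n g)).1 x + (j n (g n)).1 x = _
    rw [hE1 n _ x hx, (hj n (g n)).2 x hx, add_zero]
  have hle : ∀ (g : Pr) n k x, n ≤ k → x ∈ Ar D n → (F k g).1 x = (F n g).1 x := by
    intro g n k x hnk hx
    induction k, hnk using Nat.le_induction with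
    | base => rfl
    | succ k hk ih => rw [hstep g k x (hAmono hk hx), ih]
  choose c hc using hcov
  have hcA : ∀ x, x ∈ Ar D (c x + 1) := fun x => ⟨c x, Nat.lt_succ_self _, hc x⟩
  have hval : ∀ (g : Pr) k x, x ∈ Ar D k → (F (c x + 1) g).1 x = (F k g).1 x := by
    intro g k x hx
    rw [← hle g k (max k (c x + 1)) x (le_max_left _ _) hx,
      ← hle g (c x + 1) (max k (c x + 1)) x (le_max_right _ _) (hcA x)]
  -- the backward map
  have hcont : ∀ g : Pr, Continuous fun x => (F (c x + 1) g).1 x := by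
    intro g
    rw [continuous_iff_continuousAt]
    intro x
    obtain ⟨W, hW, hfin⟩ := hlf x
    obtain ⟨N, hN⟩ := hfin.bddAbove
    have hWA : ∀ y ∈ W, y ∈ Ar D (N + 1) := by
      intro y hy
      refine ⟨c y, Nat.lt_succ_of_le (hN ?_), hc y⟩
      exact ⟨y, hc y, hy⟩
    have h1 : (fun y => (F (N + 1) g).1 y) =ᶠ[nhds x] fun y => (F (c y + 1) g).1 y := by
      filter_upwards [hW] with y hy
      exact (hval g (N + 1) y (hWA y hy)).symm
    exact (((F (N + 1) g).2 : Continuous (F (N + 1) g).1).continuousAt).congr h1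
  obtain ⟨Q, hQ⟩ : ∃ Q : Pr →L[ℝ] ↥(Cp X), ∀ g x, (Q g).1 x = (F (c x + 1) g).1 x := by
    refine ⟨ContinuousLinearMap.codRestrict
      (ContinuousLinearMap.pi fun x : X =>
        (ContinuousLinearMap.proj (R := ℝ) (φ := fun _ : X => ℝ) x).comp
          ((Cp X).subtypeL.comp (F (c x + 1)))) (Cp X) ?_, ?_⟩
    · intro g
      exact hcont g
    · intro g x
      rfl
  have hQA : ∀ (g : Pr) k x, x ∈ Ar D k → (Q g).1 x = (F k g).1 x := by
    intro g k x hx
    rw [hQ, hval g k x hx]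
  have hb : ∀ (f : ↥(Cp X)) n x, x ∈ Ar D n → (F n (fun k => P k f)).1 x = f.1 x := by
    intro f n
    induction n with
    | zero =>
      rintro x ⟨m, hm, _⟩
      exact absurd hm (Nat.not_lt_zero m)
    | succ n ih =>
      intro x hx
      by_cases hxn : x ∈ Ar D n
      · rw [hstep _ n x hxn, ih x hxn]
      · have hxD : x ∈ D n := by
          obtain ⟨m, hm, hxm⟩ := hx
          rcases Nat.lt_succ_iff_lt_or_eq.mp hm with h | h
          · exact absurd ⟨m, h, hxm⟩ hxn
          · rw [← h]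
            exact hxm
        rw [hFs]
        show (E n (F n (fun k => P k f))).1 x + (j n (P n f)).1 x = _
        rw [hE2 n (F n (fun k => P k f)) f ih, (hj n (P n f)).1 ⟨x, hxD⟩, hP n f ⟨x, hxD⟩]
        show (E n f).1 x + (f.1 x - (E n f).1 x) = f.1 x
        ring
  refine ⟨ContinuousLinearEquiv.equivOfInverse (ContinuousLinearMap.pi P) Q ?_ ?_⟩
  · intro f
    apply Subtype.ext
    funext x
    rw [hQ]
    exact hb f (c x + 1) x (hcA x)
  · intro g
    funext n
    apply Subtype.ext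
    funext x
    show (P n (Q g)).1 x = (g n).1 x
    rw [hP n (Q g) x]
    have hxA : x.1 ∈ Ar D (n + 1) := ⟨n, Nat.lt_succ_self n, x.2⟩
    rw [hQA g (n + 1) x.1 hxA, hFs,
      hE2 n (Q g) (F n g) (fun y hy => hQA g n y hy)]
    show (E n (F n g)).1 x.1 + (j n (g n)).1 x.1 - (E n (F n g)).1 x.1 = _
    rw [(hj n (g n)).1 x]
    ring

end Pool.Agent.NPG.H84
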